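import Pool.Agent.H90.Univ

set_option autoImplicit false

/-!
# Isomorphism of finite group presentations is a complete c.e. equivalence relation
-/

namespace Pool.Agent.Results.MP_3d45c4_lc.IsomorphismComplete

/-- A finite group presentation: the generators are `x_0, ..., x_{gens - 1}`, the relators are
finitely many words, where the letter `(i, true)` stands for `x_i` and the letter `(i, false)`
for the inverse of `x_i`. -/
structure Presentation where
  gens : ℕ
  rels : List (List (Fin gens × Bool))

/-- The group presented by `P`. -/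
abbrev Presentation.Grp (P : Presentation) : Type :=
  PresentedGroup {g : FreeGroup (Fin P.gens) | ∃ w ∈ P.rels, g = FreeGroup.mk w}

/-- The code of a presentation: the code (Mathlib's standard one) of the pair formed by the
number of generators and the list of the relators, the generators in them being written as
natural numbers. -/
def encode (P : Presentation) : ℕ :=
  Encodable.encode (P.gens, P.rels.map (fun w => w.map (fun a => ((a.1 : ℕ), a.2))))

/-- The presentation with a given code. So that it is defined for every natural number, letters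
with `i ≥ gens` are dropped, and a number which codes no pair at all stands for the presentation
without generators. -/
def decode (p : ℕ) : Presentation :=
  let q : ℕ × List (List (ℕ × Bool)) := (Encodable.decode p).getD (0, [])
  ⟨q.1, q.2.map (fun w => w.filterMap (fun a =>
    if h : a.1 < q.1 then some ((⟨a.1, h⟩ : Fin q.1), a.2) else none))⟩

/-- The relation of the problem: the groups presented by `p` and `q` are isomorphic. -/
def Iso (p q : ℕ) : Prop := Nonempty ((decode p).Grp ≃* (decode q).Grp)

/-- `S` is a complete c.e. equivalence relation: it is an equivalence relation, it is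
computably enumerable as a set of pairs, and every c.e. equivalence relation on the natural
numbers is computably reducible to it. -/
def SigmaOneComplete (S : ℕ → ℕ → Prop) : Prop :=
  Equivalence S ∧ REPred (fun p : ℕ × ℕ => S p.1 p.2) ∧
    ∀ R : ℕ → ℕ → Prop, Equivalence R → REPred (fun p : ℕ × ℕ => R p.1 p.2) →
      ∃ f : ℕ → ℕ, Computable f ∧ ∀ x y, R x y ↔ S (f x) (f y)

/-- The word `k u k⁻¹ u⁻¹`, where `u = x ^ N t x ^ (-N)`. -/
def commWord {n : ℕ} (k t x : Fin n) (N : ℕ) : List (Fin n × Bool) :=
  [(k, true)] ++ (List.replicate N (x, true) ++ [(t, true)] ++ List.replicate N (x, false)) ++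
  [(k, false)] ++ (List.replicate N (x, true) ++ [(t, false)] ++ List.replicate N (x, false))

/-! ### Bridges -/

/-- The pair coded by a number. -/
def dc (p : ℕ) : H90.PC := (Encodable.decode p).getD (0, [])

theorem decode_eq (p : ℕ) : decode p = ⟨(dc p).1, (dc p).2.map (H90.fl (dc p).1)⟩ := rfl

theorem presented_congr {n : ℕ} {A B : Set (FreeGroup (Fin n))} (h : A = B) :
    Nonempty (PresentedGroup A ≃* PresentedGroup B) := by
  subst h
  exact ⟨MulEquiv.refl _⟩

theorem grp_map (q : H90.PC) :
    Nonempty ((⟨q.1, q.2.map (H90.fl q.1)⟩ : Presentation).Grp ≃* H90.GP q) := by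
  apply presented_congr
  ext g
  constructor
  · rintro ⟨w, hw, rfl⟩
    obtain ⟨v, hv, rfl⟩ := List.mem_map.1 hw
    exact ⟨v, hv, rfl⟩
  · rintro ⟨v, hv, rfl⟩
    exact ⟨_, List.mem_map.2 ⟨v, hv, rfl⟩, rfl⟩

theorem nonempty_congr {A A' B B' : Type} [Group A] [Group A'] [Group B] [Group B']
    (h : Nonempty (A ≃* A')) (h' : Nonempty (B ≃* B')) :
    Nonempty (A ≃* B) ↔ Nonempty (A' ≃* B') := by
  obtain ⟨e⟩ := h
  obtain ⟨e'⟩ := h'
  exact ⟨fun ⟨f⟩ => ⟨(e.symm.trans f).trans e'⟩, fun ⟨f⟩ => ⟨(e.trans f).trans e'.symm⟩⟩

theorem iso_iff_GP (p q : ℕ) : Iso p q ↔ Nonempty (H90.GP (dc p) ≃* H90.GP (dc q)) := by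
  unfold Iso
  rw [decode_eq, decode_eq]
  exact nonempty_congr (grp_map (dc p)) (grp_map (dc q))

theorem fl_map_val {n : ℕ} (w : List (Fin n × Bool)) :
    H90.fl n (w.map (fun a => ((a.1 : ℕ), a.2))) = w := by
  induction w with
  | nil => rfl
  | cons a w ih =>
    rw [List.map_cons, H90.fl_cons_lt n _ _ a.1.2, ih]

theorem decode_encode (P : Presentation) : decode (encode P) = P := by
  obtain ⟨n, r⟩ := P
  have h1 : dc (encode ⟨n, r⟩) = (n, r.map (fun w => w.map (fun a => ((a.1 : ℕ), a.2)))) := by
    unfold dc encode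
    rw [Encodable.encodek, Option.getD_some]
  rw [decode_eq, h1]
  simp only [List.map_map]
  congr 1
  conv_rhs => rw [← List.map_id r]
  apply List.map_congr_left
  intro w _
  exact fl_map_val w

theorem primrec_dc : Primrec dc := by
  unfold dc
  exact Primrec.option_getD.comp Primrec.decode (Primrec.const (0, []))

theorem encode_decode (p : ℕ) :
    encode (decode p) = Encodable.encode ((dc p).1, (dc p).2.map (H90.ft (dc p).1)) := by
  rw [decode_eq]
  unfold encode
  simp only [List.map_map]
  congr 3
  funext w
  exact H90.fl_map _ w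

theorem primrec_encode_decode : Primrec (fun p => encode (decode p)) := by
  have h1 : Primrec (fun p : ℕ => ((dc p).1, (dc p).2.map (H90.ft (dc p).1))) := by
    apply Primrec.pair
    · exact Primrec.fst.comp primrec_dc
    · apply Primrec.list_map (Primrec.snd.comp primrec_dc)
      apply H90.mk₂
      exact H90.primrec_ft.comp (Primrec.fst.comp (primrec_dc.comp Primrec.fst)) Primrec.snd
  exact (Primrec.encode.comp h1).of_eq (fun p => (encode_decode p).symm)

theorem codes_computable : ComputablePred (fun p : ℕ => ∃ P : Presentation, encode P = p) := by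
  have h1 : PrimrecPred (fun p : ℕ => encode (decode p) = p) :=
    Primrec.eq.comp primrec_encode_decode Primrec.id
  refine h1.computablePred.of_eq ?_
  intro p
  constructor
  · intro h
    exact ⟨_, h⟩
  · rintro ⟨P, rfl⟩
    rw [decode_encode]

theorem equivalence_iso : Equivalence Iso :=
  ⟨fun _ => ⟨MulEquiv.refl _⟩, fun ⟨e⟩ => ⟨e.symm⟩, fun ⟨e⟩ ⟨e'⟩ => ⟨e.trans e'⟩⟩

theorem re_iso : REPred (fun p : ℕ × ℕ => Iso p.1 p.2) := by
  have h1 : Computable (fun p : ℕ × ℕ => (dc p.1, dc p.2)) :=
    (Primrec.pair (primrec_dc.comp Primrec.fst) (primrec_dc.comp Primrec.snd)).to_comp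
  have h2 : REPred (fun p : ℕ × ℕ => Nonempty (H90.GP (dc p.1) ≃* H90.GP (dc p.2))) :=
    H90.iso_re.comp h1
  exact REPred.of_eq h2 (fun p => (iso_iff_GP p.1 p.2).symm)

/-! ### The family -/

theorem fl_single {n : ℕ} (i : Fin n) (b : Bool) : H90.fl n [((i : ℕ), b)] = [(i, b)] := by
  rw [H90.fl_cons_lt n _ _ i.2]
  rfl

theorem fl_replicate {n : ℕ} (i : Fin n) (b : Bool) (N : ℕ) :
    H90.fl n (List.replicate N ((i : ℕ), b)) = List.replicate N (i, b) := by
  induction N with
  | zero => rfl
  | succ N ih => rw [List.replicate_succ, H90.fl_cons_lt n _ _ i.2, ih, List.replicate_succ]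

theorem invRev_replicate {α : Type} (a : α) (b : Bool) (N : ℕ) :
    FreeGroup.invRev (List.replicate N (a, b)) = List.replicate N (a, !b) := by
  unfold FreeGroup.invRev
  rw [List.map_replicate, List.reverse_replicate]

theorem fl_relN (M : H90.Mach) (N : ℕ) (k t x : Fin M.tot) (hk : (k : ℕ) = M.gK)
    (ht : (t : ℕ) = M.gT M.q0) (hx : (x : ℕ) = M.gX2) :
    H90.fl M.tot (M.relN N) = commWord k t x N := by
  have h1 : M.relN N = ([((k : ℕ), true)] ++ (List.replicate N ((x : ℕ), true) ++
      [((t : ℕ), true)] ++ List.replicate N ((x : ℕ), false))) ++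
      ([((k : ℕ), false)] ++ (List.replicate N ((x : ℕ), true) ++
      [((t : ℕ), false)] ++ List.replicate N ((x : ℕ), false))) := by
    unfold H90.Mach.relN H90.com H90.eqr H90.gw H90.rep
    rw [hk, ht, hx, FreeGroup.invRev_append, FreeGroup.invRev_append, FreeGroup.invRev_append,
      invRev_replicate, invRev_replicate]
    simp [FreeGroup.invRev]
  rw [h1]
  simp only [H90.fl_append, fl_single, fl_replicate]
  unfold commWord
  simp only [List.append_assoc]

theorem family : ∃ (n : ℕ) (base : List (List (Fin n × Bool))) (k t x : Fin n),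
    Primrec (fun N => encode ⟨n, base ++ [commWord k t x N]⟩) ∧
    ∀ R : ℕ → ℕ → Prop, Equivalence R → REPred (fun p : ℕ × ℕ => R p.1 p.2) →
      ∃ f : ℕ → ℕ, Primrec f ∧ ∀ a b, R a b ↔
        Nonempty ((⟨n, base ++ [commWord k t x (f a)]⟩ : Presentation).Grp ≃*
          (⟨n, base ++ [commWord k t x (f b)]⟩ : Presentation).Grp) := by
  obtain ⟨M, ν, hν, hpos, huniv⟩ := H90.exists_univ
  have hk : M.gK < M.tot := by unfold H90.Mach.gK H90.Mach.tot; omega
  have hx : M.gX2 < M.tot := by unfold H90.Mach.gX2 H90.Mach.tot; omega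
  have ht : M.gT M.q0 < M.tot := by
    have := M.q0.2
    unfold H90.Mach.gT H90.Mach.tot
    omega
  have hcode : ∀ N, (⟨M.tot, M.baseRel.map (H90.fl M.tot) ++
      [commWord (⟨_, hk⟩ : Fin M.tot) ⟨_, ht⟩ ⟨_, hx⟩ N]⟩ : Presentation) =
        ⟨(M.code N).1, (M.code N).2.map (H90.fl (M.code N).1)⟩ := by
    intro N
    unfold H90.Mach.code
    simp only [List.map_append, List.map_cons, List.map_nil]
    rw [fl_relN M N (⟨_, hk⟩ : Fin M.tot) ⟨_, ht⟩ ⟨_, hx⟩ rfl rfl rfl]
  refine ⟨M.tot, M.baseRel.map (H90.fl M.tot), ⟨_, hk⟩, ⟨_, ht⟩, ⟨_, hx⟩, ?_, ?_⟩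
  · have h1 : Primrec (fun N => ((M.code N).1, (M.code N).2.map (H90.ft (M.code N).1))) := by
      apply Primrec.pair
      · exact Primrec.fst.comp (H90.primrec_code M)
      · apply Primrec.list_map (Primrec.snd.comp (H90.primrec_code M))
        apply H90.mk₂
        exact H90.primrec_ft.comp
          (Primrec.fst.comp ((H90.primrec_code M).comp Primrec.fst)) Primrec.snd
    refine (Primrec.encode.comp h1).of_eq ?_
    intro N
    rw [hcode N]
    unfold encode
    simp only [List.map_map]
    congr 3
    funext w
    exact (H90.fl_map _ w).symm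
  · intro R hR hre
    obtain ⟨c, hc⟩ := huniv R hR hre
    refine ⟨fun a => ν (Nat.pair c a),
      hν.comp (Primrec₂.natPair.comp (Primrec.const c) Primrec.id), ?_⟩
    intro a b
    rw [hc, hcode, hcode]
    exact (nonempty_congr (grp_map _) (grp_map _)).symm

/-- **Theorem.** `encode` is a coding of the finite group presentations by natural numbers (it
is injective, with inverse `decode`, and the set of codes is decidable); isomorphism of the
presented groups is a complete c.e. equivalence relation; it is so already on a family of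
presentations with the same generators and the same relators but one, and that one relator says
that the generator `k` commutes with the conjugate of the generator `t` by the `N`-th power of
the generator `x`: to every c.e. equivalence relation there is a primitive recursive
reduction into this family. -/
theorem result :
    (∀ P : Presentation, decode (encode P) = P) ∧
    ComputablePred (fun p : ℕ => ∃ P : Presentation, encode P = p) ∧
    SigmaOneComplete Iso ∧
    ∃ (n : ℕ) (base : List (List (Fin n × Bool))) (k t x : Fin n),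
      Primrec (fun N => encode ⟨n, base ++ [commWord k t x N]⟩) ∧
      ∀ R : ℕ → ℕ → Prop, Equivalence R → REPred (fun p : ℕ × ℕ => R p.1 p.2) →
        ∃ f : ℕ → ℕ, Primrec f ∧ ∀ a b, R a b ↔
          Nonempty ((⟨n, base ++ [commWord k t x (f a)]⟩ : Presentation).Grp ≃*
            (⟨n, base ++ [commWord k t x (f b)]⟩ : Presentation).Grp) := by
  refine ⟨decode_encode, codes_computable, ⟨equivalence_iso, re_iso, ?_⟩, family⟩
  intro R hR hre
  obtain ⟨n, base, k, t, x, h1, h2⟩ := family
  obtain ⟨f, hf, hfR⟩ := h2 R hR hre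
  refine ⟨fun a => encode ⟨n, base ++ [commWord k t x (f a)]⟩, (h1.comp hf).to_comp, ?_⟩
  intro a b
  rw [hfR]
  unfold Iso
  rw [decode_encode, decode_encode]

end Pool.Agent.Results.MP_3d45c4_lc.IsomorphismComplete
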